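import Pool.Agent.H.MP_09c861_lc.Time

namespace Pool.Agent.Results.MP_09c861_lc.PairFPT
open Pool.Agent.Lib.CX Pool.Agent.H.MP_09c861_lc

theorem result : (∀ H ∈ [H₁, H₂],
      (∃ R : Gr × ℕ → Gr × ℕ, PT R ∧ ∀ a, (DomSet a ↔ FreeC [H] (R a)) ∧ (R a).2 ≤ 2 * a.2) ∧
      (FPT (FreeC [H]) Prod.snd → FPT DomSet Prod.snd)) ∧
    FPT (FreeC [H₁, H₂]) Prod.snd :=
  ⟨List.forall_mem_cons.2 ⟨hard false, List.forall_mem_cons.2 ⟨hard true, by simp⟩⟩, fpt⟩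

end Pool.Agent.Results.MP_09c861_lc.PairFPT
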